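import Mathlib
import Pool.Agent.H16.QP

set_option autoImplicit false

namespace Pool.Agent.Results.MP_6b630c_al.Chain
open Pool.Agent.H16.QP

theorem result : ∃ Y : ℝ → Set W, (∀ r, QPar (Y r)) ∧
    ∀ r s, r < s → Le (Y r) (Y s) ∧ ¬ Le (Y s) (Y r) := chain

end Pool.Agent.Results.MP_6b630c_al.Chain
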